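import Pool.Agent.H155R2.BESR.Final

/-!
# Hereditarily sparse sets of lines
-/

set_option autoImplicit false

namespace Pool.Agent.Helper40W.BX

open Finset Pool.Agent.H155R2.BESR

variable {V : Type*} [DecidableEq V]

/-- three points on each line, two lines share at most one point -/
structure Lin3 (X : Finset (Finset V)) : Prop where
  three : ∀ L ∈ X, L.card = 3
  lin : ∀ L ∈ X, ∀ M ∈ X, L ≠ M → (L ∩ M).card ≤ 1

lemma Lin3.mono {X Y : Finset (Finset V)} (h : Lin3 X) (hY : Y ⊆ X) : Lin3 Y :=
  ⟨fun L hL => h.three L (hY hL), fun L hL M hM => h.lin L (hY hL) M (hY hM)⟩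

/-- any two or more lines of `S` span at least `size + 3` points -/
def HS (S : Finset (Finset V)) : Prop := ∀ Z ⊆ S, 2 ≤ Z.card → Z.card + 3 ≤ (pts Z).card

/-- any nonempty subset spans at least `size + 2` points -/
def D2 (S : Finset (Finset V)) : Prop := ∀ Z ⊆ S, Z.Nonempty → Z.card + 2 ≤ (pts Z).card

/-- no `k` lines of `X` on at most `k + 3` points -/
def NoK (X : Finset (Finset V)) (k : ℕ) : Prop := ∀ S ⊆ X, S.card = k → k + 3 < (pts S).card

lemma pts_singleton (L : Finset V) : pts {L} = L := by
  ext x; simp [mem_pts]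

lemma pts_insert (L : Finset V) (S : Finset (Finset V)) : pts (insert L S) = L ∪ pts S := by
  rw [insert_eq, pts_union, pts_singleton]

lemma card_pts_insert {S : Finset (Finset V)} {L : Finset V} (h3 : L.card = 3) :
    (pts (insert L S)).card + (L ∩ pts S).card = (pts S).card + 3 := by
  rw [pts_insert]
  have := card_union_add_card_inter L (pts S)
  omega

lemma Lin3.pair {X : Finset (Finset V)} (h : Lin3 X) {L M : Finset V} (hL : L ∈ X) (hM : M ∈ X)
    (hne : L ≠ M) : 5 ≤ (pts {L, M}).card := by
  have e : pts {L, M} = L ∪ M := by rw [pts_insert, pts_singleton]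
  have h1 := card_union_add_card_inter L M
  have h2 := h.lin L hL M hM hne
  have h3 := h.three L hL
  have h4 := h.three M hM
  rw [e]; omega

lemma Lin3.pair_hs {X : Finset (Finset V)} (h : Lin3 X) {L M : Finset V} (hL : L ∈ X) (hM : M ∈ X)
    (hne : L ≠ M) : HS {L, M} := by
  intro Z hZ hc
  have h1 : ({L, M} : Finset (Finset V)).card = 2 := card_pair hne
  have h2 : Z = {L, M} := eq_of_subset_of_card_le hZ (by omega)
  rw [h2, h1]
  exact h.pair hL hM hne

lemma HS.mono {S T : Finset (Finset V)} (h : HS S) (hT : T ⊆ S) : HS T :=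
  fun Z hZ hc => h Z (hZ.trans hT) hc

lemma Lin3.hs_insert {X S : Finset (Finset V)} (h : Lin3 X) (hSX : S ⊆ X) (hS : HS S)
    {L : Finset V} (hL : L ∈ X) (hLS : L ∉ S) (hc : (L ∩ pts S).card ≤ 2) :
    HS (insert L S) := by
  intro Z hZ hc2
  by_cases hLZ : L ∈ Z
  · obtain ⟨p, hpL, hpS⟩ : ∃ p ∈ L, p ∉ pts S := by
      by_contra hcon
      push Not at hcon
      have : L ∩ pts S = L := inter_eq_left.2 hcon
      rw [this, h.three L hL] at hc
      omega
    have hZ' : Z.erase L ⊆ S := by
      intro M hM
      rcases mem_insert.1 (hZ (mem_of_mem_erase hM)) with h1 | h1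
      · exact absurd h1 (ne_of_mem_erase hM)
      · exact h1
    have hcZ : (Z.erase L).card + 1 = Z.card := card_erase_add_one hLZ
    rcases Nat.lt_or_ge (Z.erase L).card 2 with h2 | h2
    · have h3 : (Z.erase L).card = 1 := by omega
      obtain ⟨M, hM⟩ := card_eq_one.1 h3
      have hMX : M ∈ S := hZ' (by rw [hM]; exact mem_singleton_self M)
      have hne : L ≠ M := fun e => hLS (e ▸ hMX)
      have e : Z = {L, M} := by rw [← insert_erase hLZ, hM]
      have := h.pair hL (hSX hMX) hne
      rw [← e] at this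
      omega
    · have h3 := hS (Z.erase L) hZ' h2
      have h4 : insert p (pts (Z.erase L)) ⊆ pts Z := by
        intro x hx
        rcases mem_insert.1 hx with rfl | hx
        · exact mem_pts.2 ⟨L, hLZ, hpL⟩
        · exact pts_mono (erase_subset _ _) hx
      have h5 : p ∉ pts (Z.erase L) := fun hc => hpS (pts_mono hZ' hc)
      have h6 := card_le_card h4
      rw [card_insert_of_notMem h5] at h6
      omega
  · exact hS Z (fun M hM => by
      rcases mem_insert.1 (hZ hM) with h1 | h1
      · exact absurd (h1 ▸ hM) hLZ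
      · exact h1) hc2

lemma Lin3.d2_insert {X S : Finset (Finset V)} (h : Lin3 X) (hSX : S ⊆ X) (hS : HS S)
    {L : Finset V} (hL : L ∈ X) (hLS : L ∉ S) : D2 (insert L S) := by
  intro Z hZ hne
  have hZX : Z ⊆ X := fun M hM => by
    rcases mem_insert.1 (hZ hM) with h1 | h1
    · rw [h1]; exact hL
    · exact hSX h1
  obtain ⟨M, hM⟩ := hne
  rcases Nat.lt_or_ge Z.card 2 with hc | hc
  · have h1 : Z.card = 1 := by
      have := card_pos.2 ⟨M, hM⟩
      omega
    obtain ⟨N, hN⟩ := card_eq_one.1 h1
    rw [hN, pts_singleton, card_singleton, h.three N (hZX (by rw [hN]; exact mem_singleton_self N))]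
  · by_cases hLZ : L ∈ Z
    · have hZ' : Z.erase L ⊆ S := by
        intro M hM
        rcases mem_insert.1 (hZ (mem_of_mem_erase hM)) with h1 | h1
        · exact absurd h1 (ne_of_mem_erase hM)
        · exact h1
      have hcZ : (Z.erase L).card + 1 = Z.card := card_erase_add_one hLZ
      have hm := card_le_card (pts_mono (erase_subset L Z))
      rcases Nat.lt_or_ge (Z.erase L).card 2 with h2 | h2
      · have h3 : (Z.erase L).card = 1 := by omega
        obtain ⟨M, hM⟩ := card_eq_one.1 h3
        have hMX : M ∈ S := hZ' (by rw [hM]; exact mem_singleton_self M)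
        have hne : L ≠ M := fun e => hLS (e ▸ hMX)
        have e : Z = {L, M} := by rw [← insert_erase hLZ, hM]
        have := h.pair hL (hSX hMX) hne
        rw [← e] at this
        omega
      · have h3 := hS (Z.erase L) hZ' h2
        omega
    · have h3 := hS Z (fun M hM => by
        rcases mem_insert.1 (hZ hM) with h1 | h1
        · exact absurd (h1 ▸ hM) hLZ
        · exact h1) hc
      omega

lemma Lin3.d2 {X S : Finset (Finset V)} (h : Lin3 X) (hSX : S ⊆ X) (hS : HS S) : D2 S := by
  intro Z hZ hne
  rcases Nat.lt_or_ge Z.card 2 with hc | hc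
  · have h1 : Z.card = 1 := by
      have := card_pos.2 hne
      omega
    obtain ⟨N, hN⟩ := card_eq_one.1 h1
    rw [hN, pts_singleton, card_singleton,
      h.three N (hSX (hZ (by rw [hN]; exact mem_singleton_self N)))]
  · have := hS Z hZ hc
    omega

/-- the union with a dense set -/
lemma union_bound {U S : Finset (Finset V)} {M : Finset V} (hMU : M ∈ U) (hMS : M ∈ S)
    (hU : (pts U).card ≤ U.card + 2) (hS : D2 S) :
    (pts (U ∪ S)).card + S.card ≤ (U ∪ S).card + (pts S).card := by
  have h1 := submod U S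
  have h2 := card_union_add_card_inter U S
  have h3 := hS (U ∩ S) inter_subset_right ⟨M, mem_inter.2 ⟨hMU, hMS⟩⟩
  omega

end Pool.Agent.Helper40W.BX
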