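import Pool.Agent.Helper40W.BX.Basic

/-!
# Classes of cherries connected through triangles
-/

set_option autoImplicit false

namespace Pool.Agent.Helper40W.BX

open Finset Pool.Agent.H155R2.BESR
open scoped Classical

variable {V : Type*} [DecidableEq V]

/-- ordered pairs of different intersecting lines -/
def CH (X : Finset (Finset V)) : Finset (Finset V × Finset V) :=
  (X ×ˢ X).filter (fun q => q.1 ≠ q.2 ∧ (q.1 ∩ q.2).Nonempty)

lemma mem_CH {X : Finset (Finset V)} {q : Finset V × Finset V} :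
    q ∈ CH X ↔ (q.1 ∈ X ∧ q.2 ∈ X) ∧ q.1 ≠ q.2 ∧ (q.1 ∩ q.2).Nonempty := by
  simp [CH]

/-- one step: exchange the lines, or replace the second one by the third line of a triangle -/
def St (X : Finset (Finset V)) (p q : Finset V × Finset V) : Prop :=
  p ∈ CH X ∧ q ∈ CH X ∧ (q = (p.2, p.1) ∨
    (q.1 = p.1 ∧ ∃ w ∈ p.2, w ∈ q.2 ∧ w ∉ p.1))

lemma St.symm {X : Finset (Finset V)} {p q : Finset V × Finset V} (h : St X p q) : St X q p := by
  obtain ⟨h1, h2, h3⟩ := h
  refine ⟨h2, h1, ?_⟩
  rcases h3 with h3 | ⟨h3, w, h4, h5, h6⟩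
  · left; rw [h3]
  · right; exact ⟨h3.symm, w, h5, h4, h3 ▸ h6⟩

/-- the class of a pair -/
noncomputable def cls (X : Finset (Finset V)) (c : Finset V × Finset V) :
    Finset (Finset V × Finset V) :=
  (CH X).filter (fun q => Relation.ReflTransGen (St X) c q)

lemma mem_cls {X : Finset (Finset V)} {c q : Finset V × Finset V} :
    q ∈ cls X c ↔ q ∈ CH X ∧ Relation.ReflTransGen (St X) c q := by
  simp [cls]

lemma self_mem_cls {X : Finset (Finset V)} {c : Finset V × Finset V} (hc : c ∈ CH X) :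
    c ∈ cls X c := mem_cls.2 ⟨hc, Relation.ReflTransGen.refl⟩

lemma cls_eq {X : Finset (Finset V)} {c q : Finset V × Finset V} (hq : q ∈ cls X c) :
    cls X q = cls X c := by
  have h1 := (mem_cls.1 hq).2
  have hsy : ∀ a b, Relation.ReflTransGen (St X) a b → Relation.ReflTransGen (St X) b a := by
    intro a b h
    induction h with
    | refl => exact Relation.ReflTransGen.refl
    | tail _ h4 ih => exact Relation.ReflTransGen.head h4.symm ih
  have h2 : Relation.ReflTransGen (St X) q c := hsy _ _ h1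
  ext r
  rw [mem_cls, mem_cls]
  constructor
  · rintro ⟨h3, h4⟩; exact ⟨h3, h1.trans h4⟩
  · rintro ⟨h3, h4⟩; exact ⟨h3, h2.trans h4⟩

lemma step_cls {X : Finset (Finset V)} {c p q : Finset V × Finset V} (hp : p ∈ cls X c)
    (h : St X p q) : q ∈ cls X c :=
  mem_cls.2 ⟨h.2.1, (mem_cls.1 hp).2.tail h⟩

lemma swap_cls {X : Finset (Finset V)} {c p : Finset V × Finset V} (hp : p ∈ cls X c) :
    (p.2, p.1) ∈ cls X c := by
  have h1 := mem_CH.1 (mem_cls.1 hp).1
  refine step_cls hp ⟨(mem_cls.1 hp).1, ?_, Or.inl rfl⟩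
  rw [mem_CH]
  exact ⟨⟨h1.1.2, h1.1.1⟩, h1.2.1.symm, by rw [inter_comm]; exact h1.2.2⟩

/-- the lines occurring in a class -/
noncomputable def lns (X : Finset (Finset V)) (c : Finset V × Finset V) : Finset (Finset V) :=
  (cls X c).image Prod.fst

lemma mem_lns {X : Finset (Finset V)} {c : Finset V × Finset V} {L : Finset V} :
    L ∈ lns X c ↔ ∃ M, (L, M) ∈ cls X c := by
  unfold lns
  rw [mem_image]
  constructor
  · rintro ⟨⟨a, b⟩, h, rfl⟩; exact ⟨b, h⟩
  · rintro ⟨M, h⟩; exact ⟨(L, M), h, rfl⟩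

lemma fst_lns {X : Finset (Finset V)} {c p : Finset V × Finset V} (hp : p ∈ cls X c) :
    p.1 ∈ lns X c := mem_lns.2 ⟨p.2, hp⟩

lemma snd_lns {X : Finset (Finset V)} {c p : Finset V × Finset V} (hp : p ∈ cls X c) :
    p.2 ∈ lns X c := mem_lns.2 ⟨p.1, swap_cls hp⟩

lemma lns_sub {X : Finset (Finset V)} {c : Finset V × Finset V} : lns X c ⊆ X := by
  intro L hL
  obtain ⟨M, h⟩ := mem_lns.1 hL
  exact (mem_CH.1 (mem_cls.1 h).1).1.1

lemma lns_eq {X : Finset (Finset V)} {c q : Finset V × Finset V} (hq : q ∈ cls X c) :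
    lns X q = lns X c := by
  unfold lns; rw [cls_eq hq]

lemma exit {α : Type*} {r : α → α → Prop} {a b : α} (h : Relation.ReflTransGen r a b)
    {p : α → Prop} (ha : p a) (hb : ¬ p b) :
    ∃ x y, Relation.ReflTransGen r a x ∧ r x y ∧ p x ∧ ¬ p y := by
  induction h with
  | refl => exact absurd ha hb
  | tail h1 h2 ih =>
    rename_i b c
    by_cases hpb : p b
    · exact ⟨b, c, h1, h2, hpb, hb⟩
    · exact ih hpb

/-- growth inside a class -/
lemma growth {X : Finset (Finset V)} {c : Finset V × Finset V} (_hc : c ∈ CH X)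
    {S : Finset (Finset V)} (h1 : c.1 ∈ S) (h2 : c.2 ∈ S) (hS : S ⊆ lns X c)
    (hne : S ≠ lns X c) : ∃ L ∈ lns X c, L ∉ S ∧ 2 ≤ (L ∩ pts S).card := by
  obtain ⟨L0, hL0, hL0S⟩ := exists_of_ssubset (Finset.ssubset_iff_subset_ne.2 ⟨hS, hne⟩)
  obtain ⟨L1, hL1⟩ := mem_lns.1 hL0
  obtain ⟨x, y, hx, hxy, hpx, hpy⟩ := exit (mem_cls.1 hL1).2
    (p := fun q => q.1 ∈ S ∧ q.2 ∈ S) ⟨h1, h2⟩ (fun h => hL0S h.1)
  have hxc : x ∈ cls X c := mem_cls.2 ⟨hxy.1, hx⟩
  have hyc : y ∈ cls X c := step_cls hxc hxy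
  obtain ⟨_, hyC, h3⟩ := hxy
  rcases h3 with h3 | ⟨h3, w, h4, h5, h6⟩
  · exfalso; apply hpy; rw [h3]; exact ⟨hpx.2, hpx.1⟩
  · have hy2 : y.2 ∉ S := fun h => hpy ⟨h3 ▸ hpx.1, h⟩
    refine ⟨y.2, snd_lns hyc, hy2, ?_⟩
    obtain ⟨z, hz⟩ := (mem_CH.1 hyC).2.2
    rw [mem_inter] at hz
    have hz1 : z ∈ x.1 := h3 ▸ hz.1
    have hzw : z ≠ w := fun e => h6 (e ▸ hz1)
    have hsub : ({z, w} : Finset V) ⊆ y.2 ∩ pts S := by
      intro t ht
      rcases mem_insert.1 ht with rfl | ht
      · exact mem_inter.2 ⟨hz.2, mem_pts.2 ⟨x.1, hpx.1, hz1⟩⟩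
      · rw [mem_singleton] at ht
        subst ht
        exact mem_inter.2 ⟨h5, mem_pts.2 ⟨x.2, hpx.2, h4⟩⟩
    have := card_le_card hsub
    rwa [card_pair hzw] at this

/-- the class is sparse -/
def Sp (X : Finset (Finset V)) (c : Finset V × Finset V) : Prop :=
  HS (lns X c) ∧ (pts (lns X c)).card = (lns X c).card + 3

lemma card_lt {X : Finset (Finset V)} {k : ℕ} (hX : Lin3 X) (hk : NoK X k) (hk3 : 3 ≤ k)
    {c : Finset V × Finset V} (hc : c ∈ CH X) : (lns X c).card < k := by
  have hmc := mem_CH.1 hc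
  have key : ∀ m : ℕ, ∀ S : Finset (Finset V), S ⊆ lns X c → c.1 ∈ S → c.2 ∈ S → S.card < k →
      (pts S).card ≤ S.card + 3 → (lns X c).card = S.card + m → (lns X c).card < k := by
    intro m
    induction m with
    | zero => intro S _ _ _ h4 _ h6; omega
    | succ m ih =>
      intro S h1 h2 h3 h4 h5 h6
      have hne : S ≠ lns X c := fun e => by rw [e] at h6; omega
      obtain ⟨L, hL, hLS, hL2⟩ := growth hc h2 h3 h1 hne
      have hci := card_insert_of_notMem hLS
      have hpi := card_pts_insert (S := S) (hX.three L (lns_sub hL))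
      have hsub : insert L S ⊆ lns X c := insert_subset hL h1
      have hk1 : (insert L S).card ≠ k := by
        intro e
        have := hk _ (hsub.trans lns_sub) e
        omega
      exact ih (insert L S) hsub (mem_insert_of_mem h2) (mem_insert_of_mem h3) (by omega)
        (by omega) (by omega)
  have h12 : ({c.1, c.2} : Finset (Finset V)).card = 2 := card_pair hmc.2.1
  have hself := self_mem_cls hc
  have hsub : ({c.1, c.2} : Finset (Finset V)) ⊆ lns X c := by
    intro L hL
    rcases mem_insert.1 hL with rfl | hL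
    · exact fst_lns hself
    · rw [mem_singleton] at hL; rw [hL]; exact snd_lns hself
  have hle := card_le_card hsub
  have hp : (pts {c.1, c.2}).card ≤ 5 := by
    rw [pts_insert, pts_singleton]
    have h1 := card_union_add_card_inter c.1 c.2
    have h2 := hX.three _ hmc.1.1
    have h3 := hX.three _ hmc.1.2
    have h4 := card_pos.2 hmc.2.2
    omega
  exact key ((lns X c).card - 2) {c.1, c.2} hsub (by simp) (by simp) (by omega) (by omega)
    (by omega)

/-- extension by a dense set -/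
lemma dense_ext {X : Finset (Finset V)} {k : ℕ} (hX : Lin3 X) (hk : NoK X k)
    {c : Finset V × Finset V} (hc : c ∈ CH X) (hs : ¬ Sp X c) {U : Finset (Finset V)}
    (hUX : U ⊆ X) (hMU : c.1 ∈ U) (hU : (pts U).card ≤ U.card + 2) (hUk : U.card < k) :
    ∃ U' ⊆ X, U ⊆ U' ∧ c.2 ∈ U' ∧ (pts U').card ≤ U'.card + 2 ∧ U'.card < k := by
  have hmc := mem_CH.1 hc
  by_cases hLU : c.2 ∈ U
  · exact ⟨U, hUX, Subset.refl _, hLU, hU, hUk⟩
  have key : ∀ m : ℕ, ∀ S : Finset (Finset V), S ⊆ lns X c → c.1 ∈ S → c.2 ∈ S → HS S →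
      (pts S).card = S.card + 3 → (U ∪ S).card < k → (lns X c).card = S.card + m →
      ∃ U' ⊆ X, U ⊆ U' ∧ c.2 ∈ U' ∧ (pts U').card ≤ U'.card + 2 ∧ U'.card < k := by
    intro m
    induction m with
    | zero =>
      intro S h1 _ _ h4 h5 _ h7
      exfalso
      apply hs
      have e : S = lns X c := eq_of_subset_of_card_le h1 (by omega)
      rw [e] at h4 h5
      exact ⟨h4, h5⟩
    | succ m ih =>
      intro S h1 h2 h3 h4 h5 h6 h7
      have hne : S ≠ lns X c := fun e => by rw [e] at h7; omega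
      obtain ⟨L, hL, hLS, hL2⟩ := growth hc h2 h3 h1 hne
      have hLX := lns_sub hL
      have hSX : S ⊆ X := h1.trans lns_sub
      have hci := card_insert_of_notMem hLS
      have hpi := card_pts_insert (S := S) (hX.three L hLX)
      have hsub : insert L S ⊆ lns X c := insert_subset hL h1
      have hd2 := hX.d2_insert hSX h4 hLX hLS
      have hub := union_bound hMU (mem_insert_of_mem h2 : c.1 ∈ insert L S) hU hd2
      have hcu : (U ∪ insert L S).card ≤ (U ∪ S).card + 1 := by
        have : U ∪ insert L S = insert L (U ∪ S) := by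
          ext x; simp only [mem_union, mem_insert]; tauto
        rw [this]; exact card_insert_le _ _
      have hlt : (U ∪ insert L S).card < k := by
        have : (U ∪ insert L S).card ≠ k := by
          intro e
          have := hk _ (union_subset hUX (hsub.trans lns_sub)) e
          omega
        omega
      have hL3 : (L ∩ pts S).card ≤ 3 := by
        rw [← hX.three L hLX]; exact card_le_card inter_subset_left
      rcases Nat.lt_or_ge (L ∩ pts S).card 3 with h8 | h8
      · exact ih (insert L S) hsub (mem_insert_of_mem h2) (mem_insert_of_mem h3)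
          (hX.hs_insert hSX h4 hLX hLS (by omega)) (by omega) hlt (by omega)
      · exact ⟨U ∪ insert L S, union_subset hUX (hsub.trans lns_sub), subset_union_left,
          mem_union_right _ (mem_insert_of_mem h3), by omega, hlt⟩
  have h12 : ({c.1, c.2} : Finset (Finset V)).card = 2 := card_pair hmc.2.1
  have hself := self_mem_cls hc
  have hsub : ({c.1, c.2} : Finset (Finset V)) ⊆ lns X c := by
    intro L hL
    rcases mem_insert.1 hL with rfl | hL
    · exact fst_lns hself
    · rw [mem_singleton] at hL; rw [hL]; exact snd_lns hself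
  have hle := card_le_card hsub
  have hp : (pts {c.1, c.2}).card ≤ 5 := by
    rw [pts_insert, pts_singleton]
    have h1 := card_union_add_card_inter c.1 c.2
    have h2 := hX.three _ hmc.1.1
    have h3 := hX.three _ hmc.1.2
    have h4 := card_pos.2 hmc.2.2
    omega
  have hp5 := hX.pair hmc.1.1 hmc.1.2 hmc.2.1
  have hhs := hX.pair_hs hmc.1.1 hmc.1.2 hmc.2.1
  have hsX : ({c.1, c.2} : Finset (Finset V)) ⊆ X := hsub.trans lns_sub
  have hd2 := hX.d2 hsX hhs
  have hub := union_bound hMU (by simp : c.1 ∈ ({c.1, c.2} : Finset (Finset V))) hU hd2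
  have hcu : (U ∪ {c.1, c.2}).card ≤ U.card + 1 := by
    have : U ∪ {c.1, c.2} = insert c.2 U := by
      ext x; simp only [mem_union, mem_insert, mem_singleton]
      constructor
      · rintro (h | rfl | rfl)
        · exact Or.inr h
        · exact Or.inr hMU
        · exact Or.inl rfl
      · rintro (rfl | h)
        · exact Or.inr (Or.inr rfl)
        · exact Or.inl h
    rw [this]; exact card_insert_le _ _
  have hlt : (U ∪ {c.1, c.2}).card < k := by
    have : (U ∪ {c.1, c.2}).card ≠ k := by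
      intro e
      have := hk _ (union_subset hUX hsX) e
      omega
    omega
  exact key ((lns X c).card - 2) {c.1, c.2} hsub (by simp) (by simp) hhs (by omega) hlt
    (by omega)

/-- few lines form a cherry of a dense class with a given line -/
lemma dense_few {X : Finset (Finset V)} {k : ℕ} (hX : Lin3 X) (hk : NoK X k) (hk3 : 3 ≤ k)
    {M : Finset V} (hM : M ∈ X) (D : Finset (Finset V))
    (hD : ∀ L ∈ D, (M, L) ∈ CH X ∧ ¬ Sp X (M, L)) : D.card + 1 < k + 1 := by
  have key : ∀ D : Finset (Finset V), (∀ L ∈ D, (M, L) ∈ CH X ∧ ¬ Sp X (M, L)) →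
      ∃ U ⊆ X, M ∈ U ∧ D ⊆ U ∧ (pts U).card ≤ U.card + 2 ∧ U.card < k := by
    intro D
    induction D using Finset.induction_on with
    | empty =>
      intro _
      refine ⟨{M}, singleton_subset_iff.2 hM, mem_singleton_self M, empty_subset _, ?_, ?_⟩
      · rw [pts_singleton, hX.three M hM, card_singleton]
      · rw [card_singleton]; omega
    | insert L D hL ih =>
      intro h
      obtain ⟨U, h1, h2, h3, h4, h5⟩ := ih (fun L' hL' => h L' (mem_insert_of_mem hL'))
      obtain ⟨g1, g2⟩ := h L (mem_insert_self L D)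
      obtain ⟨U', f1, f2, f3, f4, f5⟩ := dense_ext hX hk g1 g2 h1 h2 h4 h5
      exact ⟨U', f1, f2 h2, insert_subset f3 (h3.trans f2), f4, f5⟩
  obtain ⟨U, _, _, h3, _, h5⟩ := key D hD
  have := card_le_card h3
  omega

end Pool.Agent.Helper40W.BX
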