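import Pool.Agent.Helper40W.BX.Basic

/-!
# Few fans in a sparse set of at most eight lines
-/

set_option autoImplicit false

namespace Pool.Agent.Helper40W.BX

open Finset Pool.Agent.H155R2.BESR
open scoped Classical

variable {V : Type*} [DecidableEq V]

/-- number of lines through a point -/
def dg (A : Finset (Finset V)) (w : V) : ℕ := (A.filter (fun L => w ∈ L)).card

/-- `w` is outside of `M` and joined to all points of `M` -/
def Fan (A : Finset (Finset V)) (w : V) (M : Finset V) : Prop :=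
  w ∉ M ∧ ∀ m ∈ M, ∃ L ∈ A, w ∈ L ∧ m ∈ L

noncomputable def tt (A : Finset (Finset V)) (M : Finset V) : ℕ :=
  ((pts A).filter (fun w => Fan A w M)).card

noncomputable def fw (A : Finset (Finset V)) (w : V) : ℕ := (A.filter (fun M => Fan A w M)).card

section star

variable {A K : Finset (Finset V)} {M : Finset V}

lemma inter_one (h : Lin3 A) (hM : M ∈ A) (hK : K ⊆ A)
    (hm : ∀ L ∈ K, L ≠ M ∧ (L ∩ M).Nonempty) {L : Finset V} (hL : L ∈ K) : (L ∩ M).card = 1 := by
  have h1 := h.lin L (hK hL) M hM (hm L hL).1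
  have h2 := card_pos.2 (hm L hL).2
  omega

lemma sdiff_two (h : Lin3 A) (hM : M ∈ A) (hK : K ⊆ A)
    (hm : ∀ L ∈ K, L ≠ M ∧ (L ∩ M).Nonempty) {L : Finset V} (hL : L ∈ K) : (L \ M).card = 2 := by
  have h1 := inter_one h hM hK hm hL
  have h2 := card_sdiff_add_card_inter L M
  have h3 := h.three L (hK hL)
  omega

lemma star_W (h : Lin3 A) (hs : HS A) (hM : M ∈ A) (hK : K ⊆ A)
    (hm : ∀ L ∈ K, L ≠ M ∧ (L ∩ M).Nonempty) (hne : K.Nonempty) :
    K.card + 1 ≤ (pts K \ M).card := by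
  have hMK : M ∉ K := fun hc => (hm M hc).1 rfl
  have h1 := hs (insert M K) (insert_subset hM hK) (by
    rw [card_insert_of_notMem hMK]
    have := card_pos.2 hne
    omega)
  rw [card_insert_of_notMem hMK, pts_insert] at h1
  have h2 : (M ∪ pts K).card = (pts K \ M).card + M.card := by
    rw [union_comm, ← card_sdiff_add_card]
  rw [h2, h.three M hM] at h1
  omega

lemma star_sum (_h : Lin3 A) (_hM : M ∈ A) (_hK : K ⊆ A)
    (_hm : ∀ L ∈ K, L ≠ M ∧ (L ∩ M).Nonempty) (f : V → ℤ) :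
    ∑ L ∈ K, ∑ w ∈ L \ M, f w = ∑ w ∈ pts K \ M, (dg K w : ℤ) * f w := by
  have h1 : ∑ L ∈ K, ∑ w ∈ L \ M, f w = ∑ w ∈ pts K \ M, ∑ L ∈ K.filter (fun L => w ∈ L), f w := by
    apply sum_comm'
    intro L w
    simp only [mem_sdiff, mem_filter, mem_pts]
    constructor
    · rintro ⟨h1, h2, h3⟩; exact ⟨⟨h1, h2⟩, ⟨L, h1, h2⟩, h3⟩
    · rintro ⟨⟨h1, h2⟩, _, h3⟩; exact ⟨h1, h2, h3⟩
  rw [h1]
  apply sum_congr rfl
  intro w _
  rw [sum_const, nsmul_eq_mul]
  rfl

lemma star_count (h : Lin3 A) (hM : M ∈ A) (hK : K ⊆ A)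
    (hm : ∀ L ∈ K, L ≠ M ∧ (L ∩ M).Nonempty) :
    ∑ w ∈ pts K \ M, (dg K w : ℤ) = 2 * K.card := by
  have h1 := star_sum h hM hK hm (fun _ => 1)
  simp only [mul_one] at h1
  rw [← h1]
  have h2 : ∀ L ∈ K, ∑ w ∈ L \ M, (1 : ℤ) = 2 := by
    intro L hL
    rw [sum_const, nsmul_eq_mul, sdiff_two h hM hK hm hL]; norm_num
  rw [sum_congr rfl h2]
  simp [mul_comm]

lemma dg_pos {w : V} (hw : w ∈ pts K \ M) : 1 ≤ dg K w := by
  obtain ⟨L, hL, hwL⟩ := mem_pts.1 (mem_sdiff.1 hw).1
  exact card_pos.2 ⟨L, mem_filter.2 ⟨hL, hwL⟩⟩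

lemma star_biUnion (h : Lin3 A) (hM : M ∈ A) (hK : K ⊆ A)
    (hm : ∀ L ∈ K, L ≠ M ∧ (L ∩ M).Nonempty) {w : V} (hw : w ∉ M) :
    ((K.filter (fun L => w ∈ L)).biUnion (fun L => L ∩ M)).card = dg K w := by
  rw [card_biUnion]
  · unfold dg
    rw [card_eq_sum_ones]
    apply sum_congr rfl
    intro L hL
    exact inter_one h hM hK hm (mem_filter.1 hL).1
  · intro L hL N hN hne
    rw [mem_coe, mem_filter] at hL hN
    show Disjoint (L ∩ M) (N ∩ M)
    rw [disjoint_left]
    intro y hy hy'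
    rw [mem_inter] at hy hy'
    have hyw : y ≠ w := fun e => hw (e ▸ hy.2)
    exact hne (line_uniq h.lin (hK hL.1) (hK hN.1) hyw hy.1 hL.2 hy'.1 hN.2)

lemma star_le3 (h : Lin3 A) (hM : M ∈ A) (hK : K ⊆ A)
    (hm : ∀ L ∈ K, L ≠ M ∧ (L ∩ M).Nonempty) {w : V} (hw : w ∉ M) :
    dg K w ≤ 3 ∧ (dg K w = 3 → Fan K w M) := by
  have h1 := star_biUnion h hM hK hm hw
  have h2 : (K.filter (fun L => w ∈ L)).biUnion (fun L => L ∩ M) ⊆ M := by
    intro x hx
    obtain ⟨L, _, hx⟩ := mem_biUnion.1 hx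
    exact (mem_inter.1 hx).2
  have h3 := card_le_card h2
  have h4 := h.three M hM
  refine ⟨by omega, fun h5 => ⟨hw, fun m hmM => ?_⟩⟩
  have h6 := eq_of_subset_of_card_le h2 (by omega)
  rw [← h6] at hmM
  obtain ⟨L, hL, hx⟩ := mem_biUnion.1 hmM
  exact ⟨L, (mem_filter.1 hL).1, (mem_filter.1 hL).2, (mem_inter.1 hx).1⟩

end star

variable {A : Finset (Finset V)}

lemma tt_le3 (h : Lin3 A) (hs : HS A) (h8 : A.card ≤ 8) {M : Finset V} (hM : M ∈ A) :
    tt A M ≤ 3 := by
  set K := A.filter (fun L => L ≠ M ∧ (L ∩ M).Nonempty) with hKd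
  have hK : K ⊆ A := filter_subset _ _
  have hm : ∀ L ∈ K, L ≠ M ∧ (L ∩ M).Nonempty := fun L hL => (mem_filter.1 hL).2
  have hKc : K.card + 1 ≤ A.card := by
    have h1 : K ⊆ A.erase M := fun L hL => mem_erase.2 ⟨(hm L hL).1, hK hL⟩
    have h2 := card_le_card h1
    rw [card_erase_of_mem hM] at h2
    have := card_pos.2 ⟨M, hM⟩
    omega
  set T := (pts A).filter (fun w => Fan A w M) with hT
  have hTt : tt A M = T.card := rfl
  have hF : ∀ w ∈ T, w ∈ pts K \ M ∧ 3 ≤ dg K w := by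
    intro w hw
    obtain ⟨_, hwM, hj⟩ := mem_filter.1 hw
    have hj' : ∀ m ∈ M, ∃ L ∈ K, w ∈ L ∧ m ∈ L := by
      intro m hmM
      obtain ⟨L, hL, h1, h2⟩ := hj m hmM
      exact ⟨L, mem_filter.2 ⟨hL, fun e => hwM (e ▸ h1), ⟨m, mem_inter.2 ⟨h2, hmM⟩⟩⟩, h1, h2⟩
    obtain ⟨m, hmM⟩ : M.Nonempty := card_pos.1 (by rw [h.three M hM]; norm_num)
    obtain ⟨L, hL, h1, _⟩ := hj' m hmM
    refine ⟨mem_sdiff.2 ⟨mem_pts.2 ⟨L, hL, h1⟩, hwM⟩, ?_⟩
    rw [← star_biUnion h hM hK hm hwM, ← h.three M hM]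
    apply card_le_card
    intro m hmM
    obtain ⟨L, hL, h1, h2⟩ := hj' m hmM
    exact mem_biUnion.2 ⟨L, mem_filter.2 ⟨hL, h1⟩, mem_inter.2 ⟨h2, hmM⟩⟩
  rcases K.eq_empty_or_nonempty with hKe | hKne
  · have : T = ∅ := by
      apply eq_empty_of_forall_notMem
      intro w hw
      obtain ⟨h1, _⟩ := hF w hw
      rw [hKe] at h1
      simp [pts] at h1
    rw [hTt, this]; simp
  · have h1 := star_W h hs hM hK hm hKne
    have h2 := star_count h hM hK hm
    have h3 : (pts K \ M).card + 2 * (T.card : ℤ) ≤ ∑ w ∈ pts K \ M, (dg K w : ℤ) := by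
      have h4 : ∑ w ∈ pts K \ M, ((1 : ℤ) + if w ∈ T then 2 else 0) ≤
          ∑ w ∈ pts K \ M, (dg K w : ℤ) := by
        apply sum_le_sum
        intro w hw
        split_ifs with hwT
        · have := (hF w hwT).2
          have : (3 : ℤ) ≤ dg K w := by exact_mod_cast this
          linarith
        · have := dg_pos hw
          have : (1 : ℤ) ≤ dg K w := by exact_mod_cast this
          linarith
      refine le_trans (le_of_eq ?_) h4
      rw [sum_add_distrib, ← sum_filter]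
      have h5 : (pts K \ M).filter (fun w => w ∈ T) = T := by
        ext w
        rw [mem_filter]
        exact ⟨fun h => h.2, fun h => ⟨(hF w h).1, h⟩⟩
      rw [h5]
      simp [mul_comm]
    rw [h2] at h3
    rw [hTt]
    have h1' : (K.card : ℤ) + 1 ≤ (pts K \ M).card := by exact_mod_cast h1
    have hKc' : (K.card : ℤ) + 1 ≤ A.card := by exact_mod_cast hKc
    have h8' : (A.card : ℤ) ≤ 8 := by exact_mod_cast h8
    have : (T.card : ℤ) ≤ 3 := by omega
    exact_mod_cast this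

lemma fw_le (h : Lin3 A) (hs : HS A) (w : V) : fw A w ≤ dg A w - 2 := by
  set B := A.filter (fun M => Fan A w M) with hB
  set D := A.filter (fun L => w ∈ L) with hD
  rcases B.eq_empty_or_nonempty with he | ⟨M, hM⟩
  · have : fw A w = 0 := by
      show B.card = 0
      rw [he]; rfl
    omega
  · have hdis : Disjoint D B := by
      rw [disjoint_left]
      intro L h1 h2
      exact (mem_filter.1 h2).2.1 (mem_filter.1 h1).2
    have hsub : D ∪ B ⊆ A := union_subset (filter_subset _ _) (filter_subset _ _)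
    have hc : (D ∪ B).card = D.card + B.card := card_union_of_disjoint hdis
    have hMA := (mem_filter.1 hM).1
    obtain ⟨m, hm⟩ : M.Nonempty := card_pos.1 (by rw [h.three M hMA]; norm_num)
    obtain ⟨L, hL, h1, _⟩ := (mem_filter.1 hM).2.2 m hm
    have hDp : 0 < D.card := card_pos.2 ⟨L, mem_filter.2 ⟨hL, h1⟩⟩
    have hBp : 0 < B.card := card_pos.2 ⟨M, hM⟩
    have h2 := hs _ hsub (by omega)
    have h3 : pts (D ∪ B) ⊆ insert w (D.biUnion (fun L => L.erase w)) := by
      intro x hx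
      rw [mem_insert]
      by_cases hxw : x = w
      · exact Or.inl hxw
      right
      obtain ⟨N, hN, hxN⟩ := mem_pts.1 hx
      rcases mem_union.1 hN with h4 | h4
      · exact mem_biUnion.2 ⟨N, h4, mem_erase.2 ⟨hxw, hxN⟩⟩
      · obtain ⟨L', hL', h5, h6⟩ := (mem_filter.1 h4).2.2 x hxN
        exact mem_biUnion.2 ⟨L', mem_filter.2 ⟨hL', h5⟩, mem_erase.2 ⟨hxw, h6⟩⟩
    have h4 := card_le_card h3
    have h5 : (D.biUnion (fun L => L.erase w)).card ≤ D.card * 2 := by
      apply card_biUnion_le_card_mul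
      intro L hL
      rw [card_erase_of_mem (mem_filter.1 hL).2, h.three L (mem_filter.1 hL).1]
    have h6 := card_insert_le w (D.biUnion (fun L => L.erase w))
    have e1 : fw A w = B.card := rfl
    have e2 : dg A w = D.card := rfl
    omega

lemma sum_tt : ∑ M ∈ A, tt A M = ∑ w ∈ pts A, fw A w := by
  unfold tt fw
  simp_rw [card_filter]
  exact sum_comm

lemma sum_dg (h : Lin3 A) : ∑ w ∈ pts A, dg A w = 3 * A.card := by
  have h1 : ∑ w ∈ pts A, dg A w = ∑ w ∈ pts A, ∑ L ∈ A.filter (fun L => w ∈ L), 1 := by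
    apply sum_congr rfl
    intro w _
    simp [dg]
  rw [h1]
  have h2 : ∑ w ∈ pts A, ∑ L ∈ A.filter (fun L => w ∈ L), 1 = ∑ L ∈ A, ∑ w ∈ L, 1 := by
    apply sum_comm'
    intro w L
    simp only [mem_filter, mem_pts]
    constructor
    · rintro ⟨_, h1, h2⟩; exact ⟨h2, h1⟩
    · rintro ⟨h2, h1⟩; exact ⟨⟨L, h1, h2⟩, h1, h2⟩
  rw [h2]
  have h3 : ∀ L ∈ A, ∑ w ∈ L, 1 = 3 := by
    intro L hL
    simp [h.three L hL]
  rw [sum_congr rfl h3]
  simp [mul_comm]

/-- private points of a line -/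
def pr (A : Finset (Finset V)) (M : Finset V) : Finset V := M.filter (fun m => dg A m = 1)

lemma sum_pr : ∑ M ∈ A, (pr A M).card = ((pts A).filter (fun w => dg A w = 1)).card := by
  have h1 : ∑ M ∈ A, (pr A M).card =
      ∑ w ∈ (pts A).filter (fun w => dg A w = 1), ∑ L ∈ A.filter (fun L => w ∈ L), 1 := by
    have : ∀ M ∈ A, (pr A M).card = ∑ m ∈ pr A M, 1 := fun M _ => by simp
    rw [sum_congr rfl this]
    apply sum_comm'
    intro M w
    simp only [pr, mem_filter, mem_pts]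
    constructor
    · rintro ⟨h1, h2, h3⟩; exact ⟨⟨h1, h2⟩, ⟨M, h1, h2⟩, h3⟩
    · rintro ⟨⟨h1, h2⟩, _, h3⟩; exact ⟨h1, h2, h3⟩
  rw [h1]
  have h2 : ∀ w ∈ (pts A).filter (fun w => dg A w = 1),
      ∑ L ∈ A.filter (fun L => w ∈ L), 1 = 1 := by
    intro w hw
    have := (mem_filter.1 hw).2
    unfold dg at this
    simp [this]
  rw [sum_congr rfl h2]
  simp

lemma pr_tt (h : Lin3 A) (hs : HS A) (ht : (pts A).card = A.card + 3) (h3 : 3 ≤ A.card)
    (h8 : A.card ≤ 8) {M : Finset V} (hM : M ∈ A) : tt A M + 3 * (pr A M).card ≤ 3 := by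
  rcases (pr A M).eq_empty_or_nonempty with he | ⟨m, hm⟩
  · rw [he]
    have := tt_le3 h hs h8 hM
    simpa using this
  · obtain ⟨hmM, hm1⟩ := mem_filter.1 hm
    have h1 : (pr A M).card ≤ 1 := by
      by_contra hcon
      have h2 : (A.erase M).card + 1 = A.card := card_erase_add_one hM
      have h4 := hs (A.erase M) (erase_subset _ _) (by omega)
      have h5 : pts (A.erase M) ⊆ pts A \ pr A M := by
        intro x hx
        refine mem_sdiff.2 ⟨pts_mono (erase_subset _ _) hx, fun hc => ?_⟩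
        obtain ⟨hxM, hx1⟩ := mem_filter.1 hc
        obtain ⟨L, hL, hxL⟩ := mem_pts.1 hx
        have hne : L ≠ M := ne_of_mem_erase hL
        have h6 : ({L, M} : Finset (Finset V)) ⊆ A.filter (fun L => x ∈ L) := by
          intro N hN
          rcases mem_insert.1 hN with rfl | hN
          · exact mem_filter.2 ⟨mem_of_mem_erase hL, hxL⟩
          · rw [mem_singleton] at hN
            subst hN
            exact mem_filter.2 ⟨hM, hxM⟩
        have h7 := card_le_card h6
        rw [card_pair hne] at h7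
        unfold dg at hx1
        omega
      have h6 := card_le_card h5
      have h7 : pr A M ⊆ pts A := fun x hx => mem_pts.2 ⟨M, hM, (mem_filter.1 hx).1⟩
      have h8 := card_sdiff_add_card_eq_card h7
      omega
    have h2 : tt A M = 0 := by
      unfold tt
      rw [card_eq_zero]
      apply eq_empty_of_forall_notMem
      intro w hw
      obtain ⟨_, hwM, hj⟩ := mem_filter.1 hw
      obtain ⟨L, hL, hwL, hmL⟩ := hj m hmM
      have hne : L ≠ M := fun e => hwM (e ▸ hwL)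
      have h6 : ({L, M} : Finset (Finset V)) ⊆ A.filter (fun L => m ∈ L) := by
        intro N hN
        rcases mem_insert.1 hN with rfl | hN
        · exact mem_filter.2 ⟨hL, hmL⟩
        · rw [mem_singleton] at hN
          subst hN
          exact mem_filter.2 ⟨hM, hmM⟩
      have h7 := card_le_card h6
      rw [card_pair hne] at h7
      unfold dg at hm1
      omega
    omega

/-- the number of fans is smaller than the number of lines -/
theorem few (h : Lin3 A) (hs : HS A) (ht : (pts A).card = A.card + 3) (h2 : 2 ≤ A.card)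
    (h8 : A.card ≤ 8) : ∑ M ∈ A, tt A M + 1 ≤ A.card := by
  set p := ((pts A).filter (fun w => dg A w = 1)).card with hp
  have e1 : ∑ M ∈ A, tt A M ≤ ∑ w ∈ pts A, (dg A w - 2) := by
    rw [sum_tt]; exact sum_le_sum (fun w _ => fw_le h hs w)
  have e2 : ∑ w ∈ pts A, (dg A w - 2) + 2 * (pts A).card = 3 * A.card + p := by
    rw [← sum_dg h, hp, card_filter, ← sum_add_distrib]
    have : 2 * (pts A).card = ∑ w ∈ pts A, 2 := by simp [mul_comm]
    rw [this, ← sum_add_distrib]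
    apply sum_congr rfl
    intro w hw
    have h1 : 1 ≤ dg A w := by
      obtain ⟨L, hL, hwL⟩ := mem_pts.1 hw
      exact card_pos.2 ⟨L, mem_filter.2 ⟨hL, hwL⟩⟩
    split_ifs with h3 <;> omega
  rcases Nat.lt_or_ge A.card 3 with h3 | h3
  · -- two lines
    have h4 : ∀ w ∈ pts A, dg A w - 2 = 0 := by
      intro w _
      have : dg A w ≤ A.card := card_filter_le _ _
      omega
    rw [sum_eq_zero h4] at e1
    omega
  · rcases Nat.lt_or_ge p 6 with h6 | h6
    · omega
    · have e3 := sum_pr (A := A)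
      have e4 : ∑ M ∈ A, (tt A M + 3 * (pr A M).card) ≤ ∑ M ∈ A, 3 :=
        sum_le_sum (fun M hM => pr_tt h hs ht h3 h8 hM)
      rw [sum_add_distrib, ← mul_sum, e3] at e4
      simp only [sum_const, smul_eq_mul] at e4
      omega

end Pool.Agent.Helper40W.BX
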