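import Pool.Agent.Helper40W.BX.Sum

/-!
# The count for two colours
-/

set_option autoImplicit false

namespace Pool.Agent.Helper40W.BX

open Finset Pool.Agent.H155R2.BESR
open scoped Classical

variable {V : Type*} [DecidableEq V]

lemma CH_card {X : Finset (Finset V)} : (CH X).card = ∑ M ∈ X, (nbr X M).card := by
  have h1 : ∑ q ∈ CH X, 1 = ∑ M ∈ X, ∑ L ∈ nbr X M, 1 := by
    apply sum_finset_product
    intro p
    constructor
    · intro h
      have h3 := (mem_CH.1 h).1.1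
      exact ⟨h3, (mem_CH' h3).1 h⟩
    · rintro ⟨h1, h2⟩; exact (mem_CH' h1).2 h2
  simpa using h1

lemma sum_gg {X : Finset (Finset V)} (hX : Lin3 X) :
    ∑ q ∈ CH X, gg X q = ∑ M ∈ X, ∑ w ∈ pts (nbr X M) \ M,
      (dg (nbr X M) w : ℤ) * (2 - (dg (nbr X M) w : ℤ)) := by
  have h1 : ∑ q ∈ CH X, gg X q = ∑ M ∈ X, ∑ L ∈ nbr X M, gg X (M, L) := by
    apply sum_finset_product
    intro p
    constructor
    · intro h
      have h3 := (mem_CH.1 h).1.1
      exact ⟨h3, (mem_CH' h3).1 h⟩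
    · rintro ⟨h1, h2⟩; exact (mem_CH' h1).2 h2
  rw [h1]
  apply sum_congr rfl
  intro M hM
  have hsub : nbr X M ⊆ X := filter_subset _ _
  have hn : ∀ L ∈ nbr X M, L ≠ M ∧ (L ∩ M).Nonempty := fun L hL => (mem_nbr.1 hL).2
  exact star_sum hX hM hsub hn (fun w => 2 - (dg (nbr X M) w : ℤ))

lemma sum_jj {X : Finset (Finset V)} (hX : Lin3 X) :
    ∑ M ∈ X, ∑ w ∈ pts (nbr X M) \ M, (dg (nbr X M) w : ℤ) * ((dg (nbr X M) w : ℤ) - 1) =
      2 * (CH X).card - ∑ q ∈ CH X, gg X q := by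
  rw [sum_gg hX, CH_card]
  push_cast
  rw [mul_sum, ← sum_sub_distrib]
  apply sum_congr rfl
  intro M hM
  have hsub : nbr X M ⊆ X := filter_subset _ _
  have hn : ∀ L ∈ nbr X M, L ≠ M ∧ (L ∩ M).Nonempty := fun L hL => (mem_nbr.1 hL).2
  rw [← star_count hX hM hsub hn, ← sum_sub_distrib]
  apply sum_congr rfl
  intro w _
  ring

section fin
variable [Fintype V]

lemma four_CH {X : Finset (Finset V)} (hX : Lin3 X) : 4 * (CH X).card ≤ ∑ x, (rd X x) ^ 2 := by
  have h1 : (CH X).card ≤ ∑ x : V, (DD X x).card ^ 2 := by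
    have hs : CH X ⊆ (univ : Finset V).biUnion (fun x => DD X x ×ˢ DD X x) := by
      intro p hp
      obtain ⟨⟨h1, h2⟩, _, x, hx⟩ := mem_CH.1 hp
      rw [mem_inter] at hx
      rw [mem_biUnion]
      refine ⟨x, mem_univ x, ?_⟩
      rw [mem_product, mem_DD, mem_DD]
      exact ⟨⟨h1, hx.1⟩, ⟨h2, hx.2⟩⟩
    refine (card_le_card hs).trans (card_biUnion_le.trans (sum_le_sum ?_))
    intro x _
    rw [card_product, sq]
  have h2 : ∑ x : V, (rd X x) ^ 2 = 4 * ∑ x : V, (DD X x).card ^ 2 := by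
    rw [mul_sum]
    apply sum_congr rfl
    intro x _
    rw [rd_eq hX.three hX.lin x]
    ring
  rw [h2]
  omega

lemma TR_le' {X : Finset (Finset V)} (hX : Lin3 X) :
    ((TR X).card : ℤ) ≤ 18 * X.card + (2 * (CH X).card - ∑ q ∈ CH X, gg X q) := by
  rw [← sum_jj hX]
  have hs : TR X ⊆ X.biUnion (fun L =>
      (univ.sigma (fun x => (L.filter (fun y => adj X x y)).offDiag)).image
        (fun q : (_ : V) × V × V => (q.1, q.2.1, q.2.2))) := by
    rintro ⟨x, y, z⟩ ht
    simp only [TR, mem_filter, mem_univ, true_and] at ht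
    obtain ⟨h1, ⟨hyz, L, hL, hyL, hzL⟩, h3⟩ := ht
    rw [mem_biUnion]
    refine ⟨L, hL, mem_image.2 ⟨⟨x, y, z⟩, ?_, rfl⟩⟩
    simp only [mem_sigma, mem_univ, true_and, mem_offDiag, mem_filter]
    exact ⟨⟨hyL, h1⟩, ⟨hzL, h3⟩, hyz⟩
  have h1 : (TR X).card ≤ ∑ L ∈ X, ∑ x : V, ((L.filter (fun y => adj X x y)).offDiag).card := by
    refine (card_le_card hs).trans (card_biUnion_le.trans (sum_le_sum ?_))
    intro L _
    refine card_image_le.trans ?_
    rw [card_sigma]
  have h2 : ∀ M ∈ X, ∑ x : V, ((((M.filter (fun y => adj X x y)).offDiag).card : ℕ) : ℤ) ≤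
      18 + ∑ w ∈ pts (nbr X M) \ M, (dg (nbr X M) w : ℤ) * ((dg (nbr X M) w : ℤ) - 1) := by
    intro M hM
    have hM3 := hX.three M hM
    have hsub : nbr X M ⊆ X := filter_subset _ _
    have hn : ∀ L ∈ nbr X M, L ≠ M ∧ (L ∩ M).Nonempty := fun L hL => (mem_nbr.1 hL).2
    have hpt : ∀ x : V, ((((M.filter (fun y => adj X x y)).offDiag).card : ℕ) : ℤ) ≤
        (if x ∈ M then 6 else 0) + (if x ∈ pts (nbr X M) \ M then
          (dg (nbr X M) x : ℤ) * ((dg (nbr X M) x : ℤ) - 1) else 0) := by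
      intro x
      by_cases hx : x ∈ M
      · rw [if_pos hx, if_neg (fun h => (mem_sdiff.1 h).2 hx)]
        have h3 : (M.filter (fun y => adj X x y)).card ≤ 3 := by
          rw [← hM3]; exact card_filter_le _ _
        have := offDiag_card_le h3
        norm_num at this ⊢
        exact this
      · rw [if_neg hx, zero_add]
        have hY : (M.filter (fun y => adj X x y)).card ≤ dg (nbr X M) x := by
          rw [← star_biUnion hX hM hsub hn hx]
          apply card_le_card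
          intro y hy
          obtain ⟨hyM, _, L, hL, hxL, hyL⟩ := mem_filter.1 hy
          refine mem_biUnion.2 ⟨L, mem_filter.2 ⟨mem_nbr.2 ⟨hL, fun e => hx (e ▸ hxL),
            y, mem_inter.2 ⟨hyL, hyM⟩⟩, hxL⟩, mem_inter.2 ⟨hyL, hyM⟩⟩
        by_cases hxX : x ∈ pts (nbr X M) \ M
        · rw [if_pos hxX]
          exact offDiag_card_le hY
        · rw [if_neg hxX]
          have h0 : dg (nbr X M) x = 0 := by
            unfold dg
            rw [card_eq_zero]
            apply eq_empty_of_forall_notMem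
            intro L hL
            obtain ⟨h4, h5⟩ := mem_filter.1 hL
            exact hxX (mem_sdiff.2 ⟨mem_pts.2 ⟨L, h4, h5⟩, hx⟩)
          have := offDiag_card_le hY
          rw [h0] at this
          simpa using this
    refine (sum_le_sum (fun x _ => hpt x)).trans ?_
    rw [sum_add_distrib, ← sum_filter, ← sum_filter]
    have e1 : univ.filter (fun x => x ∈ M) = M := by ext; simp
    have e2 : univ.filter (fun x => x ∈ pts (nbr X M) \ M) = pts (nbr X M) \ M := by ext; simp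
    rw [e1, e2]
    have e3 : ∑ _x ∈ M, (6 : ℤ) = 18 := by rw [sum_const, hM3]; norm_num
    rw [e3]
  have h3 : ((TR X).card : ℤ) ≤ ∑ L ∈ X, ∑ x : V,
      ((((L.filter (fun y => adj X x y)).offDiag).card : ℕ) : ℤ) := by
    exact_mod_cast h1
  refine h3.trans ((sum_le_sum h2).trans ?_)
  rw [sum_add_distrib]
  simp only [sum_const, nsmul_eq_mul]
  linarith

/-- one colour -/
theorem colour {X : Finset (Finset V)} {k : ℕ} (hX : Lin3 X) (hk : NoK X k) (hk3 : 3 ≤ k)
    (hk9 : k ≤ 9) :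
    128 * ((TR X).card : ℤ) ≤ 63 * (∑ x, ((rd X x : ℤ)) ^ 2) + 6912 * X.card := by
  have h1 := TR_le' hX
  have h2 := total hX hk hk3 hk9
  have h3 : (((CH X).filter (fun c => ¬ Sp X c)).card : ℤ) ≤ 8 * X.card := by
    exact_mod_cast dense_total hX hk hk3 hk9
  have h4 : 4 * ((CH X).card : ℤ) ≤ ∑ x, ((rd X x : ℤ)) ^ 2 := by exact_mod_cast four_CH hX
  have h5 : (0 : ℤ) ≤ (CH X).card := by positivity
  have h6 : (0 : ℤ) ≤ X.card := by positivity
  linarith

/-- Main theorem. -/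
theorem exact {H : Finset (Finset V)} {k : ℕ} (hk3 : 3 ≤ k) (hk9 : k ≤ 9)
    (three : ∀ L ∈ H, L.card = 3)
    (lin : ∀ L ∈ H, ∀ M ∈ H, L ≠ M → (L ∩ M).card ≤ 1)
    (hn : 23040 ≤ Fintype.card V)
    (hden : 516 * ((Fintype.card V : ℤ) ^ 2 - 6 * H.card) ≤ (Fintype.card V : ℤ) ^ 2)
    {C : Finset (Finset V)} (hC : C ⊆ H) :
    ∃ S : Finset (Finset V), (S ⊆ C ∨ S ⊆ H \ C) ∧ S.card = k ∧ (pts S).card ≤ k + 3 := by
  by_contra hcon
  push Not at hcon
  have wf1 : NoK C k := fun S hS h1 => hcon S (Or.inl hS) h1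
  have wf2 : NoK (H \ C) k := fun S hS h1 => hcon S (Or.inr hS) h1
  have hDH : H \ C ⊆ H := sdiff_subset
  have hH : Lin3 H := ⟨three, lin⟩
  have gR : Lin3 C := hH.mono hC
  have gQ : Lin3 (H \ C) := hH.mono hDH
  have G := goodman lin hC hDH disjoint_sdiff
  have k1 := colour gR wf1 hk3 hk9
  have k2 := colour gQ wf2 hk3 hk9
  have s1 := sum_rd gR.three gR.lin
  have s2 := sum_rd gQ.three gQ.lin
  have s3 := sum_rd three lin
  have hcardH : H.card = C.card + (H \ C).card := by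
    have := card_sdiff_add_card_eq_card hC; omega
  set Q := H \ C with hQ
  set n := Fintype.card V with hnn
  have hHn : 6 * H.card ≤ n ^ 2 := by
    rw [← s3]
    calc ∑ x : V, rd H x ≤ ∑ x : V, n := by
          apply sum_le_sum
          intro x _
          exact card_le_univ _
      _ = n ^ 2 := by simp [sq, hnn]
  have cs : ((6 * ((C.card : ℤ) + Q.card))) ^ 2 ≤
      2 * (n : ℤ) * ∑ x : V, (((rd C x : ℤ)) ^ 2 + ((rd Q x : ℤ)) ^ 2) := by
    have e : (6 * ((C.card : ℤ) + Q.card)) = ∑ x : V, ((rd C x : ℤ) + (rd Q x : ℤ)) := by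
      rw [sum_add_distrib]
      have s1' : (∑ x : V, (rd C x : ℤ)) = 6 * C.card := by exact_mod_cast s1
      have s2' : (∑ x : V, (rd Q x : ℤ)) = 6 * Q.card := by exact_mod_cast s2
      rw [s1', s2']; ring
    rw [e]
    have h1 := sq_sum_le_card_mul_sum_sq (s := (univ : Finset V))
      (f := fun x => ((rd C x : ℤ) + (rd Q x : ℤ)))
    have h2 : ∑ x : V, ((rd C x : ℤ) + (rd Q x : ℤ)) ^ 2 ≤
        ∑ x : V, 2 * (((rd C x : ℤ)) ^ 2 + ((rd Q x : ℤ)) ^ 2) := by
      apply sum_le_sum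
      intro x _
      nlinarith [sq_nonneg ((rd C x : ℤ) - (rd Q x : ℤ))]
    rw [← mul_sum] at h2
    have h3 : ((univ : Finset V).card : ℤ) = n := by rw [card_univ]
    rw [h3] at h1
    have hn0 : (0 : ℤ) ≤ n := by positivity
    have := mul_le_mul_of_nonneg_left h2 hn0
    calc _ ≤ _ := h1
      _ ≤ _ := this
      _ = _ := by ring
  have G' : 3 * ∑ x : V, (((rd C x : ℤ)) ^ 2 + ((rd Q x : ℤ)) ^ 2) ≤
      (n : ℤ) ^ 3 + 2 * (((TR C).card : ℤ) + (TR Q).card) := by exact_mod_cast G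
  have hHc : (H.card : ℤ) = C.card + Q.card := by exact_mod_cast hcardH
  refine numeric (n : ℤ) 8 (6 * H.card) (6 * ((C.card : ℤ) + Q.card))
    (∑ x : V, (((rd C x : ℤ)) ^ 2 + ((rd Q x : ℤ)) ^ 2))
    (((TR C).card : ℤ) + (TR Q).card) (by norm_num) ?_ ?_
    ?_ ?_ G' ?_ cs
  · have : (23040 : ℤ) ≤ n := by exact_mod_cast hn
    linarith
  · linarith
  · have : (0 : ℤ) ≤ n := by positivity
    linarith
  · have : 6 * (C.card + Q.card) ≤ n ^ 2 := by omega
    exact_mod_cast this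
  · rw [sum_add_distrib]
    linarith

end fin

end Pool.Agent.Helper40W.BX
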