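import Pool.Agent.Helper40W.BX.Cls
import Pool.Agent.Helper40W.BX.Few

/-!
# The sum over a sparse class
-/

set_option autoImplicit false

namespace Pool.Agent.Helper40W.BX

open Finset Pool.Agent.H155R2.BESR
open scoped Classical

variable {V : Type*} [DecidableEq V]

/-- lines meeting `M` -/
def nbr (X : Finset (Finset V)) (M : Finset V) : Finset (Finset V) :=
  X.filter (fun L => L ≠ M ∧ (L ∩ M).Nonempty)

lemma mem_nbr {X : Finset (Finset V)} {M L : Finset V} :
    L ∈ nbr X M ↔ L ∈ X ∧ L ≠ M ∧ (L ∩ M).Nonempty := by simp [nbr]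

lemma mem_CH' {X : Finset (Finset V)} {M L : Finset V} (hM : M ∈ X) :
    (M, L) ∈ CH X ↔ L ∈ nbr X M := by
  rw [mem_CH, mem_nbr]
  constructor
  · rintro ⟨⟨_, h1⟩, h2, h3⟩; exact ⟨h1, h2.symm, by rw [inter_comm]; exact h3⟩
  · rintro ⟨h1, h2, h3⟩; exact ⟨⟨hM, h1⟩, h2.symm, by rw [inter_comm]; exact h3⟩

/-- the weight of an ordered pair of intersecting lines -/
def gg (X : Finset (Finset V)) (q : Finset V × Finset V) : ℤ :=
  ∑ w ∈ q.2 \ q.1, (2 - (dg (nbr X q.1) w : ℤ))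

/-- the lines paired with `M` in a class -/
noncomputable def fib (X : Finset (Finset V)) (c : Finset V × Finset V) (M : Finset V) :
    Finset (Finset V) := X.filter (fun L => (M, L) ∈ cls X c)

lemma mem_fib {X : Finset (Finset V)} {c : Finset V × Finset V} {M L : Finset V} :
    L ∈ fib X c M ↔ (M, L) ∈ cls X c := by
  unfold fib
  rw [mem_filter]
  exact ⟨fun h => h.2, fun h => ⟨(mem_CH.1 (mem_cls.1 h).1).1.2, h⟩⟩

lemma sum_cls {X : Finset (Finset V)} {c : Finset V × Finset V} (f : Finset V × Finset V → ℤ) :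
    ∑ q ∈ cls X c, f q = ∑ M ∈ lns X c, ∑ L ∈ fib X c M, f (M, L) := by
  apply sum_finset_product
  intro p
  rw [mem_fib]
  exact ⟨fun h => ⟨fst_lns h, h⟩, fun h => h.2⟩

lemma fib_sum {X : Finset (Finset V)} (hX : Lin3 X) {c : Finset V × Finset V}
    (hs : Sp X c) {M : Finset V} (hM : M ∈ lns X c) :
    2 - 2 * (tt (lns X c) M : ℤ) ≤ ∑ L ∈ fib X c M, gg X (M, L) := by
  set A := lns X c with hA
  set K := fib X c M with hKd
  have hAX : A ⊆ X := lns_sub
  have hXA : Lin3 A := hX.mono hAX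
  have hMX : M ∈ X := hAX hM
  have hK : K ⊆ A := fun L hL => snd_lns (mem_fib.1 hL)
  have hKn : ∀ L ∈ K, L ∈ nbr X M := fun L hL =>
    (mem_CH' hMX).1 (mem_cls.1 (mem_fib.1 hL)).1
  have hm : ∀ L ∈ K, L ≠ M ∧ (L ∩ M).Nonempty := fun L hL => (mem_nbr.1 (hKn L hL)).2
  have hne : K.Nonempty := by
    obtain ⟨L, hL⟩ := mem_lns.1 hM
    exact ⟨L, mem_fib.2 hL⟩
  have hdg : ∀ w ∈ pts K \ M, dg (nbr X M) w = dg K w := by
    intro w hw
    obtain ⟨hw1, hwM⟩ := mem_sdiff.1 hw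
    obtain ⟨L, hL, hwL⟩ := mem_pts.1 hw1
    unfold dg
    congr 1
    ext L'
    rw [mem_filter, mem_filter]
    constructor
    · rintro ⟨h1, h2⟩
      refine ⟨mem_fib.2 (step_cls (mem_fib.1 hL) ⟨(mem_cls.1 (mem_fib.1 hL)).1,
        (mem_CH' hMX).2 h1, Or.inr ⟨rfl, w, hwL, h2, hwM⟩⟩), h2⟩
    · rintro ⟨h1, h2⟩; exact ⟨hKn L' h1, h2⟩
  have e1 : ∑ L ∈ K, gg X (M, L) = ∑ w ∈ pts K \ M, (dg K w : ℤ) * (2 - (dg K w : ℤ)) := by
    have h1 := star_sum hXA hM hK hm (fun w => 2 - (dg (nbr X M) w : ℤ))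
    have h2 : ∑ L ∈ K, gg X (M, L) =
        ∑ L ∈ K, ∑ w ∈ L \ M, (fun w => 2 - (dg (nbr X M) w : ℤ)) w := rfl
    rw [h2, h1]
    apply sum_congr rfl
    intro w hw
    show (dg K w : ℤ) * (2 - (dg (nbr X M) w : ℤ)) = _
    rw [hdg w hw]
  have e2 := star_W hXA hs.1 hM hK hm hne
  have e3 := star_count hXA hM hK hm
  set W := pts K \ M with hW
  have e4 : ((W.filter (fun w => dg K w = 3)).card : ℤ) ≤ tt A M := by
    have : W.filter (fun w => dg K w = 3) ⊆ (pts A).filter (fun w => Fan A w M) := by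
      intro w hw
      obtain ⟨h1, h2⟩ := mem_filter.1 hw
      obtain ⟨h3, h4⟩ := mem_sdiff.1 h1
      have h5 := (star_le3 hXA hM hK hm h4).2 h2
      refine mem_filter.2 ⟨pts_mono hK h3, h5.1, fun m hmM => ?_⟩
      obtain ⟨L, hL, h6, h7⟩ := h5.2 m hmM
      exact ⟨L, hK hL, h6, h7⟩
    exact_mod_cast card_le_card this
  have e5 : ∑ w ∈ W, ((2 - (dg K w : ℤ)) - 2 * (if dg K w = 3 then 1 else 0)) ≤
      ∑ w ∈ W, (dg K w : ℤ) * (2 - (dg K w : ℤ)) := by
    apply sum_le_sum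
    intro w hw
    have h1 := dg_pos hw
    have h2 := (star_le3 hXA hM hK hm (mem_sdiff.1 hw).2).1
    have h3 : dg K w = 1 ∨ dg K w = 2 ∨ dg K w = 3 := by omega
    rcases h3 with h3 | h3 | h3 <;> rw [h3] <;> norm_num
  rw [sum_sub_distrib, sum_sub_distrib, ← mul_sum, e3] at e5
  have e6 : ∑ w ∈ W, (if dg K w = 3 then (1 : ℤ) else 0) =
      ((W.filter (fun w => dg K w = 3)).card : ℤ) := by
    rw [card_filter]; push_cast; rfl
  rw [e6] at e5
  have e7 : ∑ w ∈ W, (2 : ℤ) = 2 * W.card := by rw [sum_const, nsmul_eq_mul, mul_comm]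
  rw [e7] at e5
  have e2' : (K.card : ℤ) + 1 ≤ W.card := by exact_mod_cast e2
  rw [e1]
  linarith

lemma cls_card {X : Finset (Finset V)} {c : Finset V × Finset V} :
    (cls X c).card + (lns X c).card ≤ (lns X c).card * (lns X c).card := by
  have h1 : cls X c ⊆ (lns X c).offDiag := by
    intro p hp
    rw [mem_offDiag]
    exact ⟨fst_lns hp, snd_lns hp, (mem_CH.1 (mem_cls.1 hp).1).2.1⟩
  have h2 := card_le_card h1
  rw [offDiag_card] at h2
  have h3 : (lns X c).card ≤ (lns X c).card * (lns X c).card := by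
    rcases Nat.eq_zero_or_pos (lns X c).card with h0 | h0
    · rw [h0]
    · exact Nat.le_mul_of_pos_left _ h0
  omega

lemma sparse_sum {X : Finset (Finset V)} (hX : Lin3 X) {c : Finset V × Finset V}
    (hc : c ∈ CH X) (hs : Sp X c) (h8 : (lns X c).card ≤ 8) : 2 ≤ ∑ q ∈ cls X c, gg X q := by
  rw [sum_cls]
  have hXA : Lin3 (lns X c) := hX.mono lns_sub
  have hself := self_mem_cls hc
  have h2 : 2 ≤ (lns X c).card := by
    have h1 : ({c.1, c.2} : Finset (Finset V)) ⊆ lns X c := by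
      intro L hL
      rcases mem_insert.1 hL with rfl | hL
      · exact fst_lns hself
      · rw [mem_singleton] at hL; rw [hL]; exact snd_lns hself
    have := card_le_card h1
    rwa [card_pair (mem_CH.1 hc).2.1] at this
  have h3 := few hXA hs.1 hs.2 h2 h8
  have h4 : ∑ M ∈ lns X c, (2 - 2 * (tt (lns X c) M : ℤ)) ≤
      ∑ M ∈ lns X c, ∑ L ∈ fib X c M, gg X (M, L) :=
    sum_le_sum (fun M hM => fib_sum hX hs hM)
  rw [sum_sub_distrib, ← mul_sum, sum_const, nsmul_eq_mul] at h4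
  have h5 : (∑ M ∈ lns X c, (tt (lns X c) M : ℤ)) + 1 ≤ (lns X c).card := by exact_mod_cast h3
  linarith

lemma gg_ge {X : Finset (Finset V)} (hX : Lin3 X) {q : Finset V × Finset V} (hq : q ∈ CH X) :
    -2 ≤ gg X q := by
  obtain ⟨⟨h1, h2⟩, h3, h4⟩ := mem_CH.1 hq
  have hn : ∀ L ∈ nbr X q.1, L ≠ q.1 ∧ (L ∩ q.1).Nonempty := fun L hL => (mem_nbr.1 hL).2
  have hsub : nbr X q.1 ⊆ X := filter_subset _ _
  have h5 : (q.2 \ q.1).card = 2 :=
    sdiff_two hX h1 hsub hn (mem_nbr.2 ⟨h2, h3.symm, by rw [inter_comm]; exact h4⟩)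
  have h6 : ∑ w ∈ q.2 \ q.1, (-1 : ℤ) ≤ gg X q := by
    apply sum_le_sum
    intro w hw
    have := (star_le3 hX h1 hsub hn (mem_sdiff.1 hw).2).1
    have h7 : (dg (nbr X q.1) w : ℤ) ≤ 3 := by exact_mod_cast this
    linarith
  rw [sum_const, h5] at h6
  simpa using h6

/-- sum over all classes -/
lemma total {X : Finset (Finset V)} {k : ℕ} (hX : Lin3 X) (hk : NoK X k) (hk3 : 3 ≤ k)
    (hk9 : k ≤ 9) :
    ((CH X).card : ℤ) - 57 * ((CH X).filter (fun c => ¬ Sp X c)).card ≤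
      28 * ∑ q ∈ CH X, gg X q := by
  set f : Finset V × Finset V → ℤ := fun q => 28 * gg X q - (if Sp X q then 1 else -56) with hf
  have h1 : 0 ≤ ∑ q ∈ CH X, f q := by
    rw [← sum_fiberwise_of_maps_to (g := fun c => cls X c) (t := (CH X).image (fun c => cls X c))
      (fun c hc => mem_image_of_mem _ hc)]
    apply sum_nonneg
    intro T hT
    obtain ⟨c, hc, rfl⟩ := mem_image.1 hT
    have e : (CH X).filter (fun q => cls X q = cls X c) = cls X c := by
      ext q
      rw [mem_filter]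
      constructor
      · rintro ⟨g1, g2⟩
        rw [← g2]; exact self_mem_cls g1
      · intro g1
        exact ⟨(mem_cls.1 g1).1, cls_eq g1⟩
    rw [e]
    have hsp : ∀ q ∈ cls X c, (Sp X q ↔ Sp X c) := by
      intro q hq
      unfold Sp
      rw [lns_eq hq]
    have hcl := card_lt hX hk hk3 hc
    have h56 : ((cls X c).card : ℤ) ≤ 56 := by
      have h1 := @cls_card V _ X c
      have h2 : (lns X c).card ≤ 8 := by omega
      have : (cls X c).card ≤ 56 := by
        interval_cases (lns X c).card <;> omega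
      exact_mod_cast this
    by_cases hs : Sp X c
    · have h2 := sparse_sum hX hc hs (by omega)
      have h3 : ∑ q ∈ cls X c, f q = 28 * ∑ q ∈ cls X c, gg X q - (cls X c).card := by
        rw [hf, sum_sub_distrib, ← mul_sum]
        congr 1
        rw [card_eq_sum_ones]
        push_cast
        apply sum_congr rfl
        intro q hq
        rw [if_pos ((hsp q hq).2 hs)]
      rw [h3]; linarith
    · apply sum_nonneg
      intro q hq
      have h2 := gg_ge hX (mem_cls.1 hq).1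
      show 0 ≤ 28 * gg X q - (if Sp X q then 1 else -56)
      rw [if_neg (fun h => hs ((hsp q hq).1 h))]
      linarith
  have h2 : ∑ q ∈ CH X, (if Sp X q then (1 : ℤ) else -56) =
      ((CH X).card : ℤ) - 57 * ((CH X).filter (fun c => ¬ Sp X c)).card := by
    have h3 : ∀ q ∈ CH X, (if Sp X q then (1 : ℤ) else -56) =
        1 - 57 * (if ¬ Sp X q then 1 else 0) := by
      intro q _
      by_cases h : Sp X q <;> simp [h]
    rw [sum_congr rfl h3, sum_sub_distrib, ← mul_sum, card_filter]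
    simp
  have h3 : ∑ q ∈ CH X, f q = 28 * ∑ q ∈ CH X, gg X q -
      ∑ q ∈ CH X, (if Sp X q then (1 : ℤ) else -56) := by
    rw [hf, sum_sub_distrib, ← mul_sum]
  rw [h3, h2] at h1
  linarith

/-- few pairs in dense classes -/
lemma dense_total {X : Finset (Finset V)} {k : ℕ} (hX : Lin3 X) (hk : NoK X k) (hk3 : 3 ≤ k)
    (hk9 : k ≤ 9) : ((CH X).filter (fun c => ¬ Sp X c)).card ≤ 8 * X.card := by
  have h1 : (CH X).filter (fun c => ¬ Sp X c) ⊆
      X.biUnion (fun M => ((nbr X M).filter (fun L => ¬ Sp X (M, L))).image (fun L => (M, L))) := by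
    intro p hp
    obtain ⟨h1, h2⟩ := mem_filter.1 hp
    have h3 := (mem_CH.1 h1).1.1
    rw [mem_biUnion]
    refine ⟨p.1, h3, mem_image.2 ⟨p.2, mem_filter.2 ⟨(mem_CH' h3).1 h1, h2⟩, rfl⟩⟩
  refine (card_le_card h1).trans ?_
  rw [mul_comm]
  apply card_biUnion_le_card_mul
  intro M hM
  refine card_image_le.trans ?_
  have := dense_few hX hk hk3 hM ((nbr X M).filter (fun L => ¬ Sp X (M, L))) (by
    intro L hL
    obtain ⟨h1, h2⟩ := mem_filter.1 hL
    exact ⟨(mem_CH' hM).2 h1, h2⟩)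
  omega

end Pool.Agent.Helper40W.BX
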